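import Pool.Agent.LRG.StmtsK
import Pool.Agent.Helper90_LUB.AXK

/-!
# LRG row BZV: the basis of the products modulo constants and the logarithms

Extract of `Pool/Agent/Helper90_LUB/AXK.lean` (first part of the proof of `LUB.H90.axk`).
-/

set_option autoImplicit false

namespace Pool.Agent.LRG.H25

open Pool.Agent.LUB.H90

theorem bzv (bas : LUB.BasStmt) : K.BzvStmt := by
  intro Ω _ _ D κ _ u y hu0 hy
  obtain ⟨q, B, N, hBN, hind⟩ := bas Ω D κ u hu0
  set v : Fin q → Ω := fun l => ∏ k, u k ^ B l k with hv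
  have hv0 : ∀ l, v l ≠ 0 := fun l => Finset.prod_ne_zero_iff.2 fun k _ => zpow_ne_zero _ (hu0 k)
  set z : Fin q → Ω := fun l => ∑ k, (B l k : Ω) * y k with hz
  have hcast : ∀ n : ℤ, D ((n : ℤ) : Ω) = 0 := fun n => Derivation.map_intCast D n
  have hDz : ∀ l, D (z l) = D (v l) / v l := by
    intro l
    rw [hz, map_sum, hv, ld_prod D Finset.univ _ (fun k => zpow_ne_zero _ (hu0 k))]
    refine Finset.sum_congr rfl fun k _ => ?_
    rw [ld_zpow D (hu0 k), Derivation.leibniz, hcast, smul_zero, add_zero, smul_eq_mul, hy]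
  have hκ : ∀ k, D (y k - ∑ l, (N k l : Ω) * z l) = 0 := by
    intro k
    have h1 : D (y k - ∑ l, (N k l : Ω) * z l) =
        D (u k) / u k - ∑ l, (N k l : Ω) * (D (v l) / v l) := by
      rw [map_sub, map_sum, hy]
      congr 1
      refine Finset.sum_congr rfl fun l _ => ?_
      rw [Derivation.leibniz, hcast, smul_zero, add_zero, smul_eq_mul, hDz]
    have h2 : D (u k / ∏ l, v l ^ N k l) / (u k / ∏ l, v l ^ N k l)
        = D (u k) / u k - ∑ l, (N k l : Ω) * (D (v l) / v l) := by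
      have h3 : (∏ l, v l ^ N k l) ≠ 0 :=
        Finset.prod_ne_zero_iff.2 fun l _ => zpow_ne_zero _ (hv0 l)
      have h4 : u k / ∏ l, v l ^ N k l = u k * (∏ l, v l ^ N k l)⁻¹ := div_eq_mul_inv _ _
      rw [h4, ld_mul D (hu0 k) (inv_ne_zero h3), ld_inv D h3,
        ld_prod D Finset.univ _ (fun l => zpow_ne_zero _ (hv0 l)), ← sub_eq_add_neg]
      congr 1
      refine Finset.sum_congr rfl fun l _ => ld_zpow D (hv0 l) _
    rw [h1, ← h2, hBN k, zero_div]
  exact ⟨q, B, N, hBN, hind, hDz, hκ⟩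

end Pool.Agent.LRG.H25
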