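import Pool.Agent.LRG.StmtsR

/-!
# LRG row EXB: expansion of a polynomial of total degree `≤ n` in the box of exponents `≤ n`
-/

noncomputable section

open Finset

namespace Pool.Agent.LRG.H25

open Pool.Agent.LRG.R

/-- the exponent vector of the box point `β` -/
def expOf {m n : ℕ} (β : Fin m → Fin (n + 1)) : Fin m →₀ ℕ :=
  Finsupp.equivFunOnFinite.symm fun i => (β i : ℕ)

theorem expOf_apply {m n : ℕ} (β : Fin m → Fin (n + 1)) (i : Fin m) :
    expOf β i = (β i : ℕ) := rfl

theorem expOf_injective {m n : ℕ} : Function.Injective (expOf : (Fin m → Fin (n + 1)) → _) := by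
  intro β γ h
  funext i
  apply Fin.ext
  rw [← expOf_apply β i, ← expOf_apply γ i, h]

theorem exb : ExbStatement := by
  intro m n q hq O _ w
  have h1 : ev1 q w = ∑ d ∈ q.support, ((MvPolynomial.coeff d q : ℤ) : O) * ∏ i, w i ^ d i := by
    unfold ev1
    rw [MvPolynomial.eval₂_eq']
    rfl
  rw [h1]
  have h2 : ∀ β : Fin m → Fin (n + 1),
      ((MvPolynomial.coeff (Finsupp.equivFunOnFinite.symm fun i => (β i : ℕ)) q : ℤ) : O) *
        ∏ i, w i ^ (β i : ℕ) =
      ((MvPolynomial.coeff (expOf β) q : ℤ) : O) * ∏ i, w i ^ (expOf β i) := by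
    intro β
    rfl
  rw [Finset.sum_congr rfl fun β _ => h2 β]
  rw [← Finset.sum_image (s := (Finset.univ : Finset (Fin m → Fin (n + 1)))) (g := expOf)
    (f := fun d : Fin m →₀ ℕ => ((MvPolynomial.coeff d q : ℤ) : O) * ∏ i, w i ^ d i)
    (fun a _ b _ h => expOf_injective h)]
  apply Finset.sum_subset
  · intro d hd
    have hle : ∀ i, d i < n + 1 := by
      intro i
      have a1 : (d.sum fun _ e => e) ≤ q.totalDegree := MvPolynomial.le_totalDegree hd
      have a2 : d i ≤ d.sum fun _ e => e := by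
        rw [Finsupp.sum_fintype _ _ (fun _ => rfl)]
        exact Finset.single_le_sum (f := fun j => d j) (fun j _ => Nat.zero_le _)
          (Finset.mem_univ i)
      omega
    rw [Finset.mem_image]
    refine ⟨fun i => ⟨d i, hle i⟩, Finset.mem_univ _, ?_⟩
    ext i
    rfl
  · intro d _ hd
    rw [MvPolynomial.notMem_support_iff] at hd
    rw [hd]
    simp

end Pool.Agent.LRG.H25
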