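import Pool.Agent.LRG.StmtsE

/-!
# LRG row PLA: the infinite places and the signature
-/

set_option autoImplicit false

noncomputable section

open Polynomial NumberField

namespace Pool.Agent.LRG.H25

open Pool.Agent.LRG.E

theorem fac_rep {r₁ r₂ : ℕ} (k : Fa r₁ r₂) : fac (rep k) = k := by
  rcases k with i | j <;> rfl

theorem fac_st {r₁ r₂ : ℕ} (o : Ro r₁ r₂) : fac (st o) = fac o := by
  rcases o with i | j <;> rfl

theorem eq_rep_or {r₁ r₂ : ℕ} (o : Ro r₁ r₂) : o = rep (fac o) ∨ o = st (rep (fac o)) := by
  rcases o with i | ⟨j, b⟩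
  · left; rfl
  · cases b
    · right; rfl
    · left; rfl

theorem pla : PlaStmt := by
  intro r₁ r₂ t x K _ _ θ e hF
  set v0 : Fa r₁ r₂ → InfinitePlace K := fun k => InfinitePlace.mk (e (rep k)) with hv0
  have hinj : Function.Injective v0 := by
    intro k k' h
    have h' : InfinitePlace.mk (e (rep k)) = InfinitePlace.mk (e (rep k')) := h
    rw [InfinitePlace.mk_eq_iff] at h'
    rcases h' with h' | h'
    · have := e.injective h'
      rw [← fac_rep k, this, fac_rep]
    · rw [hF.cj] at h'
      have := e.injective h'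
      rw [← fac_rep k, ← fac_st, this, fac_rep]
  have hsurj : Function.Surjective v0 := by
    intro w
    obtain ⟨o, ho⟩ := e.surjective w.embedding
    refine ⟨fac o, ?_⟩
    show InfinitePlace.mk (e (rep (fac o))) = w
    rcases eq_rep_or o with h | h
    · rw [← h, ho, InfinitePlace.mk_embedding]
    · have h1 : ComplexEmbedding.conjugate (e (rep (fac o))) = e o := by
        rw [hF.cj, ← h]
      rw [← InfinitePlace.mk_conjugate_eq, h1, ho, InfinitePlace.mk_embedding]
  set v : Fa r₁ r₂ ≃ InfinitePlace K := Equiv.ofBijective v0 ⟨hinj, hsurj⟩ with hv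
  have hvk : ∀ k, v k = InfinitePlace.mk (e (rep k)) := fun k => rfl
  have hre : ∀ i : Fin r₁, InfinitePlace.IsReal (v (Sum.inl i)) := by
    intro i
    rw [hvk, InfinitePlace.isReal_mk_iff, ComplexEmbedding.isReal_iff, hF.cj]
    rfl
  have hco : ∀ j : Fin r₂, ¬ InfinitePlace.IsReal (v (Sum.inr j)) := by
    intro j h
    rw [hvk, InfinitePlace.isReal_mk_iff, ComplexEmbedding.isReal_iff, hF.cj] at h
    have h1 := e.injective h
    have h2 : (Sum.inr (j, !true) : Ro r₁ r₂) = Sum.inr (j, true) := h1
    have h3 := Sum.inr_injective h2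
    have h4 := congrArg Prod.snd h3
    simp at h4
  classical
  refine ⟨⟨v, fun k => ⟨hvk k, ?_⟩⟩, ?_, ?_⟩
  · rcases k with i | j
    · rw [InfinitePlace.mult, if_pos (hre i)]
      rfl
    · rw [InfinitePlace.mult, if_neg (hco j)]
      rfl
  · have h1 : InfinitePlace.nrRealPlaces K =
        Fintype.card {w : InfinitePlace K // InfinitePlace.IsReal w} := by
      unfold InfinitePlace.nrRealPlaces
      exact Fintype.card_congr (Equiv.refl _)
    rw [h1, Fintype.card_subtype, Finset.card_filter,
      ← Equiv.sum_comp v (fun w => if InfinitePlace.IsReal w then 1 else 0), Fintype.sum_sum_type]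
    simp [hre, hco]
  · have h1 : InfinitePlace.nrComplexPlaces K =
        Fintype.card {w : InfinitePlace K // InfinitePlace.IsComplex w} := by
      unfold InfinitePlace.nrComplexPlaces
      exact Fintype.card_congr (Equiv.refl _)
    rw [h1, Fintype.card_subtype, Finset.card_filter,
      ← Equiv.sum_comp v (fun w => if InfinitePlace.IsComplex w then 1 else 0),
      Fintype.sum_sum_type]
    have h2 : ∀ w : InfinitePlace K, InfinitePlace.IsComplex w ↔ ¬ InfinitePlace.IsReal w :=
      fun w => InfinitePlace.not_isReal_iff_isComplex.symm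
    simp [h2, hre, hco]

end Pool.Agent.LRG.H25
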